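import Mathlib
import Pool.Agent.Helper879.ECD.Tutte

set_option autoImplicit false

namespace Pool.Agent.H721Z.ZS

open Finset Pool.Agent.Helper879.ECD

/-- A fractional form of Tutte's condition with a small loss. -/
theorem frac_tutte {W : Type} [Fintype W] [DecidableEq W] (H : SimpleGraph W)
    (hev : Even (Fintype.card W)) (r n : ℕ) (w : W → W → ℕ)
    (hw : ∀ a b, w a b ≠ 0 → H.Adj a b)
    (hsum : ∀ x, ∑ a, w a x ≤ r)
    {ι : Type} [DecidableEq ι] (Φ : Finset ι) (p q : ι → W) (hpq : ∀ i ∈ Φ, H.Adj (p i) (q i))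
    (hn : n * Φ.card < 2 * r)
    (hcut : ∀ S : Finset W, Odd S.card →
      r ≤ ∑ a ∈ S, ∑ b ∈ Sᶜ, w a b + n * (Φ.filter (fun i => p i ∈ S ∨ q i ∈ S)).card) :
    ∃ M : H.Subgraph, M.IsPerfectMatching := by
  classical
  by_contra hno
  obtain ⟨U, hU, -⟩ := exists_min_barrier (H := H) (by simpa using hev) hno
  set 𝒵 : Finset (Finset W) := univ.filter (fun S => OddComp H U (S : Set W)) with h𝒵
  have hmem : ∀ S, S ∈ 𝒵 ↔ OddComp H U (S : Set W) := by intro S; simp [h𝒵]
  have hcard : {Z | OddComp H U Z}.ncard = 𝒵.card := by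
    rw [← Set.ncard_coe_finset, ← Set.ncard_image_of_injective (𝒵 : Set (Finset W))
      (Finset.coe_injective)]
    congr 1
    ext Z
    constructor
    · intro hZ
      refine ⟨Z.toFinset, ?_, by simp⟩
      rw [Finset.mem_coe, hmem]; simpa using hZ
    · rintro ⟨S, hS, rfl⟩
      exact (hmem S).1 hS
  set X : Finset W := U.toFinset with hX
  have hXc : U.ncard = X.card := by rw [hX, Set.ncard_eq_toFinset_card']
  have hdisj : ∀ S ∈ 𝒵, ∀ S' ∈ 𝒵, ∀ z, z ∈ S → z ∈ S' → S = S' := by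
    intro S hS S' hS' z hz hz'
    exact Finset.coe_injective (((hmem S).1 hS).eq_of_mem ((hmem S').1 hS') hz hz')
  have h1 : ∀ S ∈ 𝒵, ∑ a ∈ S, ∑ b ∈ Sᶜ, w a b ≤ ∑ a ∈ S, ∑ b ∈ X, w a b := by
    intro S hS
    refine sum_le_sum fun a ha => ?_
    refine sum_le_sum_of_ne_zero fun b hb hne => ?_
    by_contra hbX
    have hbU : b ∉ U := by simpa [hX] using hbX
    have := ((hmem S).1 hS).closed (z := a) ha hbU (hw a b hne)
    exact (Finset.mem_compl.1 hb) this
  have h2 : ∑ S ∈ 𝒵, ∑ a ∈ S, ∑ b ∈ X, w a b ≤ r * X.card := by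
    rw [← sum_biUnion (f := fun a => ∑ b ∈ X, w a b) (t := fun S : Finset W => S)]
    · calc ∑ a ∈ 𝒵.biUnion (fun S => S), ∑ b ∈ X, w a b ≤ ∑ a, ∑ b ∈ X, w a b :=
            sum_le_sum_of_subset (subset_univ _)
        _ = ∑ b ∈ X, ∑ a, w a b := sum_comm
        _ ≤ ∑ b ∈ X, r := sum_le_sum fun b _ => hsum b
        _ = r * X.card := by simp [mul_comm]
    · intro S hS S' hS' hne
      exact Finset.disjoint_left.2 fun z hz hz' => hne (hdisj S hS S' hS' z hz hz')
  have h3 : ∑ S ∈ 𝒵, (Φ.filter (fun i => p i ∈ S ∨ q i ∈ S)).card ≤ Φ.card := by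
    rw [← card_biUnion]
    · exact card_le_card (biUnion_subset.2 fun S _ => filter_subset _ _)
    · intro S hS S' hS' hne
      refine Finset.disjoint_left.2 fun i hi hi' => hne ?_
      rw [mem_filter] at hi hi'
      have ha := hpq i hi.1
      have hS1 := (hmem S).1 hS
      have hS2 := (hmem S').1 hS'
      rcases hi.2 with h | h <;> rcases hi'.2 with h' | h'
      · exact hdisj S hS S' hS' _ h h'
      · exact hdisj S hS S' hS' _ (hS1.closed (z := p i) h (hS2.notMem (z := q i) h') ha) h'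
      · exact hdisj S hS S' hS' _ (hS1.closed (z := q i) h (hS2.notMem (z := p i) h') ha.symm) h'
      · exact hdisj S hS S' hS' _ h h'
  have h4 : r * 𝒵.card ≤ r * X.card + n * Φ.card := by
    calc r * 𝒵.card = ∑ S ∈ 𝒵, r := by simp [mul_comm]
      _ ≤ ∑ S ∈ 𝒵, (∑ a ∈ S, ∑ b ∈ X, w a b +
            n * (Φ.filter (fun i => p i ∈ S ∨ q i ∈ S)).card) := by
          refine sum_le_sum fun S hS => ?_
          have hodd : Odd S.card := by
            have := ((hmem S).1 hS).2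
            rwa [Set.ncard_coe_finset] at this
          exact (hcut S hodd).trans (Nat.add_le_add_right (h1 S hS) _)
      _ = ∑ S ∈ 𝒵, ∑ a ∈ S, ∑ b ∈ X, w a b +
            n * ∑ S ∈ 𝒵, (Φ.filter (fun i => p i ∈ S ∨ q i ∈ S)).card := by
          rw [sum_add_distrib, mul_sum]
      _ ≤ _ := Nat.add_le_add h2 (Nat.mul_le_mul_left _ h3)
  rw [hcard, hXc] at hU
  have h5 : r * (X.card + 2) ≤ r * 𝒵.card := Nat.mul_le_mul_left _ hU
  nlinarith

end Pool.Agent.H721Z.ZS
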