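import Mathlib

set_option autoImplicit false

namespace Pool.Agent.H721Z.ZS

open Finset

variable {V D : Type} [Fintype V] [DecidableEq V] [DecidableEq D] (α β : D → V)

/-- `S` is `k`-regular on both sides. -/
def Reg (S : Finset D) (k : ℕ) : Prop :=
  ∀ v, (S.filter (fun d => α d = v)).card = k ∧ (S.filter (fun d => β d = v)).card = k

omit [Fintype V] in
theorem Reg.sdiff {S A : Finset D} {k j : ℕ} (hS : Reg α β S k) (hA : Reg α β A j) (h : A ⊆ S) :
    Reg α β (S \ A) (k - j) := by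
  intro v
  have e : ∀ γ : D → V, (S \ A).filter (fun d => γ d = v) =
      S.filter (fun d => γ d = v) \ A.filter (fun d => γ d = v) := by
    intro γ; ext d; simp only [mem_filter, mem_sdiff]; tauto
  rw [e, e, card_sdiff_of_subset (filter_subset_filter _ h),
    card_sdiff_of_subset (filter_subset_filter _ h), (hS v).1, (hS v).2, (hA v).1, (hA v).2]
  exact ⟨rfl, rfl⟩

omit [Fintype V] in
theorem Reg.union {A B : Finset D} {k j : ℕ} (hA : Reg α β A k) (hB : Reg α β B j)
    (h : Disjoint A B) : Reg α β (A ∪ B) (k + j) := by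
  intro v
  rw [filter_union, filter_union, card_union_of_disjoint (disjoint_filter_filter h),
    card_union_of_disjoint (disjoint_filter_filter h), (hA v).1, (hA v).2, (hB v).1, (hB v).2]
  exact ⟨rfl, rfl⟩

omit [Fintype V] [DecidableEq D] in
theorem card_fib (γ : D → V) (S : Finset D) (k : ℕ)
    (h : ∀ v, (S.filter (fun d => γ d = v)).card = k) (U : Finset V) :
    (S.filter (fun d => γ d ∈ U)).card = k * U.card := by
  rw [card_eq_sum_card_fiberwise (f := γ) (t := U) (by intro d hd; exact (mem_filter.1 hd).2)]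
  rw [sum_congr rfl (g := fun _ => k)]
  · simp [mul_comm]
  · intro v hv
    rw [← h v]
    congr 1
    ext d
    simp only [mem_filter]
    exact ⟨fun h => ⟨h.1.1, h.2⟩, fun h => ⟨⟨h.1, h.2 ▸ hv⟩, h.2⟩⟩

theorem exists_pm {S : Finset D} {k : ℕ} (hS : Reg α β S k) (hk : 1 ≤ k) :
    ∃ A ⊆ S, Reg α β A 1 := by
  classical
  let t : V → Finset V := fun v => (S.filter (fun d => α d = v)).image β
  obtain ⟨f, hf, hft⟩ := (Finset.all_card_le_biUnion_card_iff_exists_injective t).1 (by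
    intro s
    have h1 := card_fib α S k (fun v => (hS v).1) s
    have h2 := card_fib β S k (fun v => (hS v).2) (s.biUnion t)
    have h3 : S.filter (fun d => α d ∈ s) ⊆ S.filter (fun d => β d ∈ s.biUnion t) := by
      intro d hd
      rw [mem_filter] at hd ⊢
      refine ⟨hd.1, mem_biUnion.2 ⟨α d, hd.2, mem_image.2 ⟨d, by simp [hd.1], rfl⟩⟩⟩
    have h4 := card_le_card h3
    rw [h1, h2] at h4
    exact Nat.le_of_mul_le_mul_left h4 hk)
  have hex : ∀ v, ∃ d, d ∈ S ∧ α d = v ∧ β d = f v := by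
    intro v
    obtain ⟨d, hd, hb⟩ := mem_image.1 (hft v)
    rw [mem_filter] at hd
    exact ⟨d, hd.1, hd.2, hb⟩
  choose g hg using hex
  have hsurj := Finite.injective_iff_surjective.1 hf
  refine ⟨univ.image g, ?_, fun v => ⟨?_, ?_⟩⟩
  · intro d hd
    obtain ⟨v, -, rfl⟩ := mem_image.1 hd
    exact (hg v).1
  · rw [card_eq_one]
    refine ⟨g v, ?_⟩
    ext d
    simp only [mem_filter, mem_image, mem_univ, true_and, mem_singleton]
    constructor
    · rintro ⟨⟨u, rfl⟩, h⟩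
      rw [(hg u).2.1] at h; rw [h]
    · rintro rfl; exact ⟨⟨v, rfl⟩, (hg v).2.1⟩
  · obtain ⟨u, rfl⟩ := hsurj v
    rw [card_eq_one]
    refine ⟨g u, ?_⟩
    ext d
    simp only [mem_filter, mem_image, mem_univ, true_and, mem_singleton]
    constructor
    · rintro ⟨⟨u', rfl⟩, h⟩
      rw [(hg u').2.2] at h; rw [hf h]
    · rintro rfl; exact ⟨⟨u, rfl⟩, (hg u).2.2⟩

theorem exists_factor {S : Finset D} {k : ℕ} (hS : Reg α β S k) (j : ℕ) (hj : j ≤ k) :
    ∃ A ⊆ S, Reg α β A j := by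
  induction j with
  | zero => exact ⟨∅, empty_subset _, fun v => by simp⟩
  | succ j ih =>
    obtain ⟨A, hA, hr⟩ := ih (by omega)
    obtain ⟨B, hB, hb⟩ := exists_pm α β (hS.sdiff α β hr hA) (by omega)
    refine ⟨A ∪ B, union_subset hA (hB.trans sdiff_subset), hr.union α β hb ?_⟩
    exact disjoint_left.2 fun d h1 h2 => (mem_sdiff.1 (hB h2)).2 h1

theorem exists_pm_mem (k : ℕ) : ∀ {S : Finset D}, Reg α β S k → ∀ d0 ∈ S,
    ∃ A ⊆ S, Reg α β A 1 ∧ d0 ∈ A := by
  induction k with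
  | zero =>
    intro S hS d0 h0
    have := (hS (α d0)).1
    rw [card_eq_zero] at this
    have h : d0 ∈ S.filter (fun d => α d = α d0) := by simp [h0]
    rw [this] at h; simp at h
  | succ k ih =>
    intro S hS d0 h0
    obtain ⟨A, hA, hr⟩ := exists_pm α β hS (by omega)
    by_cases h : d0 ∈ A
    · exact ⟨A, hA, hr, h⟩
    · obtain ⟨B, hB, hb⟩ := ih (S := S \ A) (by simpa using hS.sdiff α β hr hA) d0 (by simp [h0, h])
      exact ⟨B, hB.trans sdiff_subset, hb⟩

theorem exists_factor_mem {S : Finset D} {k : ℕ} (hS : Reg α β S k) (j : ℕ) (hj1 : 1 ≤ j)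
    (hj : j ≤ k) (d0 : D) (h0 : d0 ∈ S) : ∃ A ⊆ S, Reg α β A j ∧ d0 ∈ A := by
  obtain ⟨A, hA, hr, hd⟩ := exists_pm_mem α β k hS d0 h0
  obtain ⟨B, hB, hb⟩ := exists_factor α β (hS.sdiff α β hr hA) (j - 1) (by omega)
  refine ⟨A ∪ B, union_subset hA (hB.trans sdiff_subset), ?_, by simp [hd]⟩
  have := hr.union α β hb (disjoint_left.2 fun d h1 h2 => (mem_sdiff.1 (hB h2)).2 h1)
  rwa [show 1 + (j - 1) = j by omega] at this

theorem exists_factor_notMem {S : Finset D} {k : ℕ} (hS : Reg α β S k) (j : ℕ)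
    (hj : j < k) (d0 : D) (h0 : d0 ∈ S) : ∃ A ⊆ S, Reg α β A j ∧ d0 ∉ A := by
  obtain ⟨A, hA, hr, hd⟩ := exists_factor_mem α β hS (k - j) (by omega) (by omega) d0 h0
  refine ⟨S \ A, sdiff_subset, ?_, by simp [hd]⟩
  have := hS.sdiff α β hr hA
  rwa [show k - (k - j) = j by omega] at this

end Pool.Agent.H721Z.ZS
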