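import Mathlib
import Pool.Agent.H721Z.ZS.Frac

set_option autoImplicit false

namespace Pool.Agent.H721Z.ZS

open Finset

section

variable {V D : Type} [DecidableEq V] [DecidableEq D] (π : D → V) (τ : D → D) (m : ℕ)

/-- adjacency of the gadget graph -/
def gAdj : D ⊕ (V × Fin m) → D ⊕ (V × Fin m) → Prop
  | .inl d, .inl e => e = τ d ∧ d ≠ e
  | .inl d, .inr x => π d = x.1
  | .inr x, .inl d => π d = x.1
  | .inr _, .inr _ => False

/-- the gadget graph -/
def gGraph (hτ : ∀ d, τ (τ d) = d) : SimpleGraph (D ⊕ (V × Fin m)) where
  Adj := gAdj π τ m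
  symm := ⟨by
    rintro (d | x) (e | y) h
    · obtain ⟨rfl, h⟩ := h
      exact ⟨(hτ d).symm, h.symm⟩
    · exact h
    · exact h
    · exact h⟩
  loopless := ⟨by
    rintro (d | x) h
    · exact h.2 rfl
    · exact h⟩

/-- weights on the gadget graph -/
def gW (n : ℕ) : D ⊕ (V × Fin m) → D ⊕ (V × Fin m) → ℕ
  | .inl d, .inl e => if e = τ d ∧ d ≠ e then n else 0
  | .inl d, .inr x => if π d = x.1 then 1 else 0
  | .inr x, .inl d => if π d = x.1 then 1 else 0
  | .inr _, .inr _ => 0

end

theorem cut_formula {V D : Type} [Fintype V] [Fintype D] [DecidableEq V] [DecidableEq D]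
    (π : D → V) (τ : D → D) (m n : ℕ) (S : Finset (D ⊕ (V × Fin m))) :
    ∑ a ∈ S, ∑ b ∈ Sᶜ, gW π τ m n a b =
      ∑ d, (if Sum.inl d ∈ S ∧ Sum.inl (τ d) ∉ S then n else 0) +
      ∑ d, ∑ i : Fin m, (if (Sum.inl d ∈ S ↔ Sum.inr (π d, i) ∈ S) then 0 else 1) := by
  have h0 : ∑ a ∈ S, ∑ b ∈ Sᶜ, gW π τ m n a b =
      ∑ a, ∑ b, if a ∈ S ∧ b ∉ S then gW π τ m n a b else 0 := by
    rw [← sum_filter_add_sum_filter_not univ (fun a => a ∈ S)]
    have e1 : univ.filter (fun a => a ∈ S) = S := by ext; simp
    rw [e1]
    have e2 : ∑ a ∈ univ.filter (fun a => ¬ a ∈ S), ∑ b,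
        (if a ∈ S ∧ b ∉ S then gW π τ m n a b else 0) = 0 := by
      refine sum_eq_zero fun a ha => sum_eq_zero fun b _ => ?_
      rw [mem_filter] at ha
      simp [ha.2]
    rw [e2, add_zero]
    refine sum_congr rfl fun a ha => ?_
    rw [← sum_filter]
    congr 1
    ext b; simp [ha]
  rw [h0, Fintype.sum_sum_type]
  simp only [Fintype.sum_sum_type, gW, ite_self, sum_const_zero, add_zero]
  rw [sum_add_distrib, add_assoc]
  congr 1
  · refine sum_congr rfl fun d _ => ?_
    rw [sum_eq_single (τ d)]
    · by_cases h : d = τ d
      · simp [← h]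
      · simp [h]
    · intro e _ he
      simp [he]
    · simp
  · rw [sum_comm (s := (univ : Finset (V × Fin m))), ← sum_add_distrib]
    refine sum_congr rfl fun d _ => ?_
    rw [← sum_add_distrib, Fintype.sum_prod_type, sum_eq_single (π d)]
    · refine sum_congr rfl fun i _ => ?_
      by_cases h1 : Sum.inl d ∈ S <;> by_cases h2 : Sum.inr (π d, i) ∈ S <;> simp [h1, h2]
    · intro v _ hv
      refine sum_eq_zero fun i _ => ?_
      simp [hv.symm]
    · simp

/-- An even factor avoiding the fixed darts. -/
theorem factor_lemma {V D : Type} [Fintype V] [Fintype D] [DecidableEq V] [DecidableEq D]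
    (π : D → V) (τ : D → D) (hτ : ∀ d, τ (τ d) = d) (r m s : ℕ) (hr : r = m + 2 * s)
    (hm : 1 ≤ m) (h3 : r ≤ 3 * m)
    (hreg : ∀ v, (univ.filter (fun d => π d = v)).card = r)
    (hΦ : (univ.filter (fun d => τ d = d)).card ≤ 2)
    (hcut : ∀ U : Finset V, (univ.filter (fun d => π d ∈ U ∧ π (τ d) ∉ U)).card = 1 →
      ∃ d, τ d = d ∧ π d ∈ U) :
    ∃ N : Finset D, (∀ d ∈ N, τ d ∈ N ∧ τ d ≠ d) ∧
      ∀ v, (univ.filter (fun d => π d = v ∧ d ∉ N)).card = m := by
  classical
  have hD : ∀ U : Finset V, (univ.filter (fun d => π d ∈ U)).card = r * U.card := by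
    intro U
    rw [card_eq_sum_card_fiberwise (f := π) (t := U) (by intro d hd; simpa using hd)]
    rw [sum_congr rfl (g := fun _ => r)]
    · simp [mul_comm]
    · intro v hv
      rw [← hreg v]
      congr 1
      ext d
      simp only [mem_filter, mem_univ, true_and]
      exact ⟨fun h => h.2, fun h => ⟨h ▸ hv, h⟩⟩
  let i0 : Fin m := ⟨0, hm⟩
  obtain ⟨M, hM⟩ := frac_tutte (gGraph π τ m hτ) (by
      have := hD univ
      simp only [mem_univ, filter_true, card_univ] at this
      rw [Fintype.card_sum, Fintype.card_prod, Fintype.card_fin, this, hr]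
      exact ⟨(m + s) * Fintype.card V, by ring⟩) r (2 * s) (gW π τ m (2 * s))
    (by
      rintro (d | x) (e | y) h <;> simp only [gW, ne_eq, ite_eq_right_iff, not_forall] at h
      · exact h.1
      · exact h.1
      · exact h.1
      · exact absurd trivial h)
    (by
      rintro (e | y)
      · rw [Fintype.sum_sum_type]
        simp only [gW]
        have a1 : ∑ d, (if e = τ d ∧ d ≠ e then 2 * s else 0) ≤ 2 * s := by
          rw [sum_eq_single (τ e)]
          · split_ifs <;> omega
          · intro d _ hd
            rw [if_neg]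
            rintro ⟨rfl, -⟩
            exact hd (hτ d).symm
          · simp
        have a2 : ∑ x : V × Fin m, (if π e = x.1 then 1 else 0) = m := by
          rw [Fintype.sum_prod_type, sum_eq_single (π e)]
          · simp
          · intro v _ hv; simp [hv.symm]
          · simp
        omega
      · rw [Fintype.sum_sum_type]
        simp only [gW, sum_const_zero, add_zero]
        rw [← card_filter, hreg])
    (univ.filter (fun d => τ d = d)) (fun d => Sum.inl d) (fun d => Sum.inr (π d, i0))
    (by intro d _; exact rfl)
    (by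
      have : 2 * s * (univ.filter (fun d => τ d = d)).card ≤ 2 * s * 2 :=
        Nat.mul_le_mul_left _ hΦ
      omega)
    (by
      intro S hS
      rw [cut_formula]
      by_cases hc : ∃ v i j, Sum.inr (v, i) ∈ S ∧ Sum.inr (v, j) ∉ S
      · obtain ⟨v, i, j, hi, hj⟩ := hc
        have : r ≤ ∑ d, ∑ i : Fin m,
            (if (Sum.inl d ∈ S ↔ Sum.inr (π d, i) ∈ S) then 0 else 1) := by
          calc r = ∑ d ∈ univ.filter (fun d => π d = v), 1 := by simp [hreg]
            _ ≤ ∑ d ∈ univ.filter (fun d => π d = v), ∑ i : Fin m,
              (if (Sum.inl d ∈ S ↔ Sum.inr (π d, i) ∈ S) then 0 else 1) := by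
                refine sum_le_sum fun d hd => ?_
                rw [mem_filter] at hd
                by_cases h : Sum.inl d ∈ S
                · refine le_trans ?_ (single_le_sum (fun _ _ => Nat.zero_le _) (mem_univ j))
                  simp [hd.2, h, hj]
                · refine le_trans ?_ (single_le_sum (fun _ _ => Nat.zero_le _) (mem_univ i))
                  simp [hd.2, h, hi]
            _ ≤ _ := sum_le_sum_of_subset (filter_subset _ _)
        omega
      · push Not at hc
        set U : Finset V := univ.filter (fun v => Sum.inr (v, i0) ∈ S) with hU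
        have hUi : ∀ v i, Sum.inr (v, i) ∈ S ↔ v ∈ U := by
          intro v i
          simp only [hU, mem_filter, mem_univ, true_and]
          exact ⟨hc v i i0, hc v i0 i⟩
        set T : Finset D := univ.filter (fun d => ¬ (Sum.inl d ∈ S ↔ π d ∈ U)) with hT
        have e1 : ∑ d, ∑ i : Fin m,
            (if (Sum.inl d ∈ S ↔ Sum.inr (π d, i) ∈ S) then 0 else 1) = m * T.card := by
          rw [hT, card_filter, mul_sum]
          refine sum_congr rfl fun d _ => ?_
          simp only [hUi]
          by_cases h : (Sum.inl d ∈ S ↔ π d ∈ U) <;> simp [h]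
        rw [e1]
        set A : Finset D := univ.filter (fun d => Sum.inl d ∈ S) with hA
        set P : Finset D := univ.filter (fun d => π d ∈ U) with hP
        have e2 : S.card = A.card + m * U.card := by
          have : S.card = ∑ a, if a ∈ S then 1 else 0 := by
            rw [← card_filter]; congr 1; ext; simp
          rw [this, Fintype.sum_sum_type, ← card_filter, Fintype.sum_prod_type]
          congr 1
          simp only [hUi]
          rw [sum_comm]
          simp
        have e3 : A.card + P.card = T.card + 2 * (A ∩ P).card := by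
          simp only [hA, hP, hT, ← filter_and, card_filter, mul_sum, ← sum_add_distrib]
          refine sum_congr rfl fun d _ => ?_
          by_cases h1 : Sum.inl d ∈ S <;> by_cases h2 : π d ∈ U <;> simp [h1, h2]
        have e4 : P.card = r * U.card := hD U
        have hTodd : T.card % 2 = 1 := by
          rw [Nat.odd_iff] at hS
          have : r * U.card = m * U.card + 2 * (s * U.card) := by rw [hr]; ring
          omega
        by_cases hT3 : 3 ≤ T.card
        · have : m * 3 ≤ m * T.card := Nat.mul_le_mul_left _ hT3
          omega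
        have hT1 : T.card = 1 := by omega
        obtain ⟨d1, hd1⟩ := card_eq_one.1 hT1
        have hst : ∀ d, ¬ (Sum.inl d ∈ S ↔ π d ∈ U) ↔ d = d1 := by
          intro d
          rw [← mem_singleton, ← hd1, hT]; simp
        rw [hT1]
        by_cases hx : ∃ d, Sum.inl d ∈ S ∧ Sum.inl (τ d) ∉ S
        · obtain ⟨d, hd⟩ := hx
          have : 2 * s ≤ ∑ d, (if Sum.inl d ∈ S ∧ Sum.inl (τ d) ∉ S then 2 * s else 0) := by
            refine le_trans ?_ (single_le_sum (fun _ _ => Nat.zero_le _) (mem_univ d))
            simp [hd]
          omega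
        by_cases hy : ∃ d, τ d = d ∧ (Sum.inl d ∈ S ∨ Sum.inr (π d, i0) ∈ S)
        · obtain ⟨d, hd⟩ := hy
          have : 1 ≤ ((univ.filter (fun d => τ d = d)).filter
              (fun d => Sum.inl d ∈ S ∨ Sum.inr (π d, i0) ∈ S)).card :=
            card_pos.2 ⟨d, by simp [hd.1, hd.2]⟩
          have := Nat.mul_le_mul_left (2 * s) this
          omega
        exfalso
        push Not at hx hy
        have hiff : ∀ d, Sum.inl d ∈ S ↔ Sum.inl (τ d) ∈ S := by
          intro d
          refine ⟨hx d, fun h => ?_⟩
          have := hx _ h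
          rwa [hτ] at this
        have hs1 := (hst d1).2 rfl
        have hne : τ d1 ≠ d1 := by
          intro h
          have := hy d1 h
          rw [hUi] at this
          tauto
        have hs2 : (Sum.inl (τ d1) ∈ S ↔ π (τ d1) ∈ U) := by
          by_contra h
          exact hne ((hst _).1 h)
        have hone : (univ.filter (fun d => π d ∈ U ∧ π (τ d) ∉ U)).card = 1 := by
          rw [card_eq_one]
          have key : ∀ d, π d ∈ U → π (τ d) ∉ U → d = d1 ∨ d = τ d1 := by
            intro d h1 h2
            by_contra hcon
            push Not at hcon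
            have a1 : (Sum.inl d ∈ S ↔ π d ∈ U) := by
              by_contra h; exact hcon.1 ((hst _).1 h)
            have a2 : (Sum.inl (τ d) ∈ S ↔ π (τ d) ∈ U) := by
              by_contra h
              have := (hst _).1 h
              exact hcon.2 (by rw [← this, hτ])
            have := hiff d
            tauto
          have := hiff d1
          by_cases h1 : π d1 ∈ U
          · refine ⟨d1, ?_⟩
            ext d
            simp only [mem_filter, mem_univ, true_and, mem_singleton]
            constructor
            · rintro ⟨a, b⟩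
              rcases key d a b with h | h
              · exact h
              · subst h; tauto
            · rintro rfl; tauto
          · refine ⟨τ d1, ?_⟩
            ext d
            simp only [mem_filter, mem_univ, true_and, mem_singleton]
            constructor
            · rintro ⟨a, b⟩
              rcases key d a b with h | h
              · subst h; tauto
              · exact h
            · rintro rfl; rw [hτ]; tauto
        obtain ⟨d, hd, hdU⟩ := hcut U hone
        exact (hy d hd).2 ((hUi _ _).2 hdU))
  rw [SimpleGraph.Subgraph.isPerfectMatching_iff] at hM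
  choose μ hμ huniq using hM
  have hinv : ∀ a, μ (μ a) = a := fun a => (huniq (μ a) a (hμ a).symm).symm
  have hadj : ∀ a, gAdj π τ m a (μ a) := fun a => M.adj_sub (hμ a)
  refine ⟨univ.filter (fun d => ∃ e, μ (Sum.inl d) = Sum.inl e), ?_, ?_⟩
  · intro d hd
    simp only [mem_filter, mem_univ, true_and] at hd ⊢
    obtain ⟨e, he⟩ := hd
    have h1 := hadj (Sum.inl d)
    rw [he] at h1
    obtain ⟨rfl, h2⟩ := h1
    exact ⟨⟨d, by rw [← he, hinv]⟩, h2.symm⟩
  · intro v
    have hex : ∀ i : Fin m, ∃ d, μ (Sum.inr (v, i)) = Sum.inl d ∧ π d = v := by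
      intro i
      have h1 := hadj (Sum.inr (v, i))
      rcases h : μ (Sum.inr (v, i)) with d | y
      · rw [h] at h1; exact ⟨d, rfl, h1⟩
      · rw [h] at h1; exact h1.elim
    choose g hg hgv using hex
    have hginj : Function.Injective g := by
      intro i j hij
      have : μ (μ (Sum.inr (v, i))) = μ (μ (Sum.inr (v, j))) := by rw [hg, hg, hij]
      rw [hinv, hinv] at this
      simpa using this
    have : univ.filter (fun d => π d = v ∧
        d ∉ univ.filter (fun d => ∃ e, μ (Sum.inl d) = Sum.inl e)) = univ.image g := by
      ext d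
      simp only [mem_filter, mem_univ, true_and, mem_image, not_exists]
      constructor
      · rintro ⟨h1, h2⟩
        have h3 := hadj (Sum.inl d)
        rcases h : μ (Sum.inl d) with e | y
        · exact absurd h (h2 e)
        · rw [h] at h3
          obtain ⟨v', i⟩ := y
          have h4 : π d = v' := h3
          have h5 : v' = v := by rw [← h4, h1]
          subst h5
          refine ⟨i, ?_⟩
          have := hg i
          rw [← h, hinv] at this
          simpa using this.symm
      · rintro ⟨i, rfl⟩
        refine ⟨hgv i, fun e he => ?_⟩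
        rw [← hg, hinv] at he
        simp at he
    rw [this, card_image_of_injective _ hginj]
    simp

end Pool.Agent.H721Z.ZS
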