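import Mathlib
import Pool.Agent.H721Z.ZS.Gadget
import Pool.Agent.H721Z.ZS.Konig

set_option autoImplicit false

namespace Pool.Agent.H721Z.ZS

open Finset

/-- the even factor avoiding the root half-edge in the bridgeless case -/
theorem exists_N {V D : Type} [Fintype V] [Fintype D] [DecidableEq V] [DecidableEq D]
    (π : D → V) (τ : D → D) (hτ : ∀ d, τ (τ d) = d) (r m s : ℕ) (hr : r = m + 2 * s)
    (hm : 1 ≤ m) (h3 : r ≤ 3 * m)
    (hreg : ∀ v, (univ.filter (fun d => π d = v)).card = r)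
    (h2 : ∀ U : Finset V, U.Nonempty → U ≠ univ →
      2 ≤ (univ.filter (fun d => π d ∈ U ∧ π (τ d) ∉ U)).card) (d0 : D) :
    ∃ N : Finset D, (∀ d ∈ N, τ d ∈ N) ∧
      (∀ v, (univ.filter (fun d => π d = v ∧ d ∉ N)).card = m) ∧ (τ d0 = d0 → d0 ∉ N) := by
  classical
  obtain ⟨h, hh, hh0⟩ : ∃ h : D, (∀ d, τ d = d → τ h = h) ∧ (τ d0 = d0 → h = d0) := by
    by_cases a : τ d0 = d0
    · exact ⟨d0, fun _ _ => a, fun _ => rfl⟩
    · by_cases b : ∃ d, τ d = d
      · obtain ⟨d, hd⟩ := b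
        exact ⟨d, fun _ _ => hd, fun c => absurd c a⟩
      · exact ⟨d0, fun d hd => absurd ⟨d, hd⟩ b, fun _ => rfl⟩
  let π' : D × Bool → V × Bool := fun x => (π x.1, x.2)
  let τ' : D × Bool → D × Bool := fun x =>
    if τ x.1 = x.1 ∧ x.1 ≠ h then (x.1, !x.2) else (τ x.1, x.2)
  have hτ' : ∀ x, τ' (τ' x) = x := by
    rintro ⟨d, b⟩
    by_cases a : τ d = d ∧ d ≠ h
    · simp [τ', a]
    · have a' : ¬ (τ (τ d) = τ d ∧ τ d ≠ h) := by
        rw [hτ]
        rintro ⟨c, e⟩
        exact a ⟨c.symm, c ▸ e⟩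
      simp only [τ', if_neg a, if_neg a', hτ]
  obtain ⟨N, hN, hNc⟩ := factor_lemma π' τ' hτ' r m s hr hm h3
    (by
      rintro ⟨v, b⟩
      rw [← hreg v]
      refine card_bij (fun x _ => x.1) ?_ ?_ ?_
      · rintro ⟨d, c⟩ hx
        simp only [π', mem_filter, mem_univ, true_and, Prod.mk.injEq] at hx ⊢
        exact hx.1
      · rintro ⟨d, c⟩ hx ⟨d', c'⟩ hx' e
        simp only [π', mem_filter, mem_univ, true_and, Prod.mk.injEq] at hx hx' e ⊢
        exact ⟨e, hx.2.trans hx'.2.symm⟩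
      · intro d hd
        exact ⟨(d, b), by simpa [π'] using hd, rfl⟩)
    (by
      have : univ.filter (fun x => τ' x = x) ⊆ {(h, true), (h, false)} := by
        rintro ⟨d, b⟩ hx
        simp only [mem_filter, mem_univ, true_and, τ'] at hx
        by_cases a : τ d = d ∧ d ≠ h
        · rw [if_pos a] at hx; simp at hx
        · rw [if_neg a] at hx
          simp only [Prod.mk.injEq, and_true] at hx
          have : d = h := by by_contra c; exact a ⟨hx, c⟩
          subst this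
          cases b <;> simp
      exact (card_le_card this).trans card_le_two)
    (by
      intro U hU
      have key : ∀ b, (univ.filter (fun v => (v, b) ∈ U)).Nonempty →
          univ.filter (fun v => (v, b) ∈ U) = univ := by
        intro b hne
        by_contra hc
        have a := h2 _ hne hc
        have : (univ.filter (fun d => π d ∈ univ.filter (fun v => (v, b) ∈ U) ∧
            π (τ d) ∉ univ.filter (fun v => (v, b) ∈ U))).card ≤
            (univ.filter (fun x => π' x ∈ U ∧ π' (τ' x) ∉ U)).card := by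
          refine card_le_card_of_injOn (fun d => (d, b)) ?_ ?_
          · intro d hd
            simp only [coe_filter, mem_filter, mem_univ, true_and, Set.mem_ofPred_eq] at hd ⊢
            have c : ¬ (τ d = d ∧ d ≠ h) := by
              rintro ⟨c, -⟩
              rw [c] at hd; exact hd.2 hd.1
            simp only [π', τ', if_neg c]
            exact hd
          · intro d _ d' _ e
            simpa using e
        omega
      obtain ⟨⟨d, b⟩, hx⟩ := card_pos.1 (by omega : 0 <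
        (univ.filter (fun x => π' x ∈ U ∧ π' (τ' x) ∉ U)).card)
      simp only [mem_filter, mem_univ, true_and] at hx
      have hall := key b ⟨π d, by simpa [π'] using hx.1⟩
      have hall' : ∀ v, (v, b) ∈ U := by
        intro v
        have : v ∈ univ.filter (fun v => (v, b) ∈ U) := by rw [hall]; exact mem_univ _
        simpa using this
      have c : τ d = d ∧ d ≠ h := by
        by_contra c
        apply hx.2
        simp only [π', τ', if_neg c]
        exact hall' _
      refine ⟨(h, b), ?_, hall' _⟩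
      simp [τ', hh d c.1])
  refine ⟨univ.filter (fun d => (d, false) ∈ N), ?_, ?_, ?_⟩
  · intro d hd
    simp only [mem_filter, mem_univ, true_and] at hd ⊢
    by_cases a : τ d = d
    · rw [a]; exact hd
    · have := (hN _ hd).1
      simpa [τ', a] using this
  · intro v
    rw [← hNc (v, false)]
    refine card_bij (fun d _ => (d, false)) ?_ ?_ ?_
    · intro d hd
      simpa [π'] using hd
    · intro d _ d' _ e
      simpa using e
    · rintro ⟨d, c⟩ hx
      simp only [π', mem_filter, mem_univ, true_and, Prod.mk.injEq] at hx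
      obtain ⟨⟨a, rfl⟩, b⟩ := hx
      exact ⟨d, by simp [a, b], rfl⟩
  · intro a hd
    simp only [mem_filter, mem_univ, true_and] at hd
    have e := hh0 a
    subst e
    exact (hN _ hd).2 (by simp [τ', a])

theorem sum_ind {V D : Type} [Fintype V] [Fintype D] [DecidableEq V] [DecidableEq D]
    (π : D → V) (τ : D → D) (hτ : ∀ d, τ (τ d) = d) (A : Finset D) (j : ℕ)
    (hA : Reg π (fun d => π (τ d)) A j) (v : V) :
    ∑ d ∈ univ.filter (fun d => π d = v), (if d ∈ A then (1 : ℤ) else 0) = j ∧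
    ∑ d ∈ univ.filter (fun d => π d = v), (if τ d ∈ A then (1 : ℤ) else 0) = j := by
  constructor
  · rw [sum_boole, ← (hA v).1]
    congr 2
    ext d; simp [and_comm]
  · rw [sum_boole, ← (hA v).2]
    congr 1
    refine card_bij (fun d _ => τ d) ?_ ?_ ?_
    · intro d hd
      simp only [mem_filter, mem_univ, true_and] at hd ⊢
      rw [hτ]; exact ⟨hd.2, hd.1⟩
    · intro d _ d' _ e
      rw [← hτ d, e, hτ]
    · intro d hd
      simp only [mem_filter, mem_univ, true_and] at hd ⊢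
      exact ⟨τ d, by rw [hτ]; exact ⟨hd.2, hd.1⟩, hτ d⟩

theorem reg_swap {V D : Type} [Fintype D] [DecidableEq V] [DecidableEq D]
    (π : D → V) (τ : D → D) (hτ : ∀ d, τ (τ d) = d) (S : Finset D) (hS : ∀ d ∈ S, τ d ∈ S) (k : ℕ)
    (h : ∀ v, (S.filter (fun d => π d = v)).card = k) : Reg π (fun d => π (τ d)) S k := by
  intro v
  refine ⟨h v, ?_⟩
  rw [← h v]
  refine card_bij (fun d _ => τ d) ?_ ?_ ?_
  · intro d hd
    simp only [mem_filter] at hd ⊢
    exact ⟨hS d hd.1, hd.2⟩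
  · intro d _ d' _ e
    rw [← hτ d, e, hτ]
  · intro d hd
    simp only [mem_filter] at hd ⊢
    exact ⟨τ d, ⟨hS d hd.1, by rw [hτ]; exact hd.2⟩, hτ d⟩

/-- admissible parameters -/
def Par (r m s j : ℕ) (c : ℤ) : Prop :=
  r = m + 2 * s ∧ r ≤ 3 * m ∧ 1 ≤ j ∧ j < m ∧ (c = 1 ∨ c = 2) ∧ (m : ℤ) + j = 2 * s * c

theorem base_pos {V D : Type} [Fintype V] [Fintype D] [DecidableEq V] [DecidableEq D]
    (π : D → V) (τ : D → D) (hτ : ∀ d, τ (τ d) = d) (r m s j : ℕ) (c : ℤ) (hp : Par r m s j c)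
    (hreg : ∀ v, (univ.filter (fun d => π d = v)).card = r)
    (h2 : ∀ U : Finset V, U.Nonempty → U ≠ univ →
      2 ≤ (univ.filter (fun d => π d ∈ U ∧ π (τ d) ∉ U)).card) (d0 : D) (ρ : ℤ)
    (hρ : ρ = 2 ∨ ρ = 4) :
    ∃ f : D → ℤ, (∀ d, f (τ d) = f d) ∧ (∀ d, f d ≠ 0 ∧ |f d| < 5) ∧
      (∀ d, τ d = d → Even (f d)) ∧
      (∀ v, ∑ d ∈ univ.filter (fun d => π d = v), f d = 0) ∧ (τ d0 = d0 → f d0 = ρ) := by
  obtain ⟨hr, h3, hj1, hj, hc, hcm⟩ := hp
  obtain ⟨N, hN, hNc, hN0⟩ := exists_N π τ hτ r m s hr (by omega) h3 hreg h2 d0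
  have hN' : ∀ d, τ d ∈ N ↔ d ∈ N := fun d =>
    ⟨fun h => by have := hN _ h; rwa [hτ] at this, hN d⟩
  have hreg' : Reg π (fun d => π (τ d)) Nᶜ m := by
    refine reg_swap π τ hτ _ (fun d hd => by rw [mem_compl] at hd ⊢; rwa [hN']) m fun v => ?_
    rw [← hNc v]
    congr 1
    ext d; simp [and_comm]
  obtain ⟨A, hA, hAr, hA0⟩ : ∃ A ⊆ Nᶜ, Reg π (fun d => π (τ d)) A j ∧
      (τ d0 = d0 → (d0 ∈ A ↔ ρ = 4)) := by
    by_cases a : τ d0 = d0
    · have h0 : d0 ∈ Nᶜ := mem_compl.2 (hN0 a)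
      rcases hρ with e | e
      · obtain ⟨A, hA, hAr, hd⟩ := exists_factor_notMem _ _ hreg' j hj d0 h0
        exact ⟨A, hA, hAr, fun _ => by simp [hd, e]⟩
      · obtain ⟨A, hA, hAr, hd⟩ := exists_factor_mem _ _ hreg' j hj1 hj.le d0 h0
        exact ⟨A, hA, hAr, fun _ => by simp [hd, e]⟩
    · obtain ⟨A, hA, hAr⟩ := exists_factor _ _ hreg' j hj.le
      exact ⟨A, hA, hAr, fun b => absurd b a⟩
  have hAN : ∀ d, d ∈ N → d ∉ A := fun d hd h => mem_compl.1 (hA h) hd
  refine ⟨fun d => (if d ∈ N then -2 * c else 2) + (if d ∈ A then 1 else 0) +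
    (if τ d ∈ A then 1 else 0), ?_, ?_, ?_, ?_, ?_⟩
  · intro d
    simp only [hN', hτ]
    ring
  · intro d
    by_cases a : d ∈ N
    · simp only [a, if_true, hAN d a, hAN _ (hN d a), if_false]
      rcases hc with rfl | rfl <;> norm_num
    · simp only [a, if_false]
      split_ifs <;> norm_num
  · intro d hd
    simp only [hd]
    split_ifs
    · exact ⟨1 - c, by ring⟩
    · exact ⟨-c, by ring⟩
    · exact ⟨2, by ring⟩
    · exact ⟨1, by ring⟩
  · intro v
    obtain ⟨e1, e2⟩ := sum_ind π τ hτ A j hAr v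
    rw [sum_add_distrib, sum_add_distrib, e1, e2, sum_ite]
    simp only [sum_const, filter_filter, nsmul_eq_mul]
    have a1 := hNc v
    have a2 := card_filter_add_card_filter_not (s := univ.filter (fun d => π d = v))
      (fun d => d ∈ N)
    rw [filter_filter, filter_filter, a1, hreg v] at a2
    have a3 : (univ.filter (fun d => π d = v ∧ d ∈ N)).card = 2 * s := by omega
    rw [a1, a3]
    push_cast
    linarith
  · intro a
    have h1 := hA0 a
    simp only [hN0 a, a, if_false]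
    rcases hρ with e | e
    · have : d0 ∉ A := by rw [h1, e]; norm_num
      simp [this, e]
    · have : d0 ∈ A := by rw [h1, e]
      simp [this, e]

theorem base {V D : Type} [Fintype V] [Fintype D] [DecidableEq V] [DecidableEq D]
    (π : D → V) (τ : D → D) (hτ : ∀ d, τ (τ d) = d) (r m s j : ℕ) (c : ℤ) (hp : Par r m s j c)
    (hreg : ∀ v, (univ.filter (fun d => π d = v)).card = r)
    (h2 : ∀ U : Finset V, U.Nonempty → U ≠ univ →
      2 ≤ (univ.filter (fun d => π d ∈ U ∧ π (τ d) ∉ U)).card) (d0 : D) (ρ : ℤ)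
    (hρ : ρ ≠ 0 ∧ |ρ| < 5 ∧ Even ρ) :
    ∃ f : D → ℤ, (∀ d, f (τ d) = f d) ∧ (∀ d, f d ≠ 0 ∧ |f d| < 5) ∧
      (∀ d, τ d = d → Even (f d)) ∧
      (∀ v, ∑ d ∈ univ.filter (fun d => π d = v), f d = 0) ∧ (τ d0 = d0 → f d0 = ρ) := by
  obtain ⟨h0, h5, k, hk⟩ := hρ
  rw [abs_lt] at h5
  by_cases hpos : 0 < ρ
  · exact base_pos π τ hτ r m s j c hp hreg h2 d0 ρ (by omega)
  · obtain ⟨f, a1, a2, a3, a4, a5⟩ := base_pos π τ hτ r m s j c hp hreg h2 d0 (-ρ) (by omega)
    refine ⟨fun d => - f d, fun d => by simp [a1], fun d => by simpa using a2 d,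
      fun d hd => (a3 d hd).neg, fun v => by simp [a4 v], fun h => by simp [a5 h]⟩

/-- the statement proved by induction on the set of active vertices -/
def Good {V D : Type} [Fintype D] [DecidableEq V] (π : D → V) (τ : D → D) (U : Finset V)
    (f : D → ℤ) : Prop :=
  (∀ d, π d ∈ U → π (τ d) ∈ U → f (τ d) = f d) ∧ (∀ d, π d ∈ U → f d ≠ 0 ∧ |f d| < 5) ∧
    (∀ d, π d ∈ U → (τ d = d ∨ π (τ d) ∉ U) → Even (f d)) ∧
    (∀ v ∈ U, ∑ d ∈ univ.filter (fun d => π d = v), f d = 0)

theorem base_sub {V D : Type} [Fintype V] [Fintype D] [DecidableEq V] [DecidableEq D]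
    (π : D → V) (τ : D → D) (hτ : ∀ d, τ (τ d) = d) (r m s j : ℕ) (c : ℤ) (hp : Par r m s j c)
    (hreg : ∀ v, (univ.filter (fun d => π d = v)).card = r) (U : Finset V)
    (h2 : ∀ U1 ⊆ U, U1.Nonempty → U1 ≠ U →
      2 ≤ (univ.filter (fun d => π d ∈ U1 ∧ π (τ d) ∈ U \ U1)).card) (d0 : D) (h0 : π d0 ∈ U)
    (ρ : ℤ) (hρ : ρ ≠ 0 ∧ |ρ| < 5 ∧ Even ρ) :
    ∃ f : D → ℤ, Good π τ U f ∧ ((τ d0 = d0 ∨ π (τ d0) ∉ U) → f d0 = ρ) := by
  classical
  let π' : {d // π d ∈ U} → {v // v ∈ U} := fun d => ⟨π d.1, d.2⟩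
  let τ' : {d // π d ∈ U} → {d // π d ∈ U} := fun d =>
    if h : π (τ d.1) ∈ U then ⟨τ d.1, h⟩ else d
  have t1 : ∀ (d : {d // π d ∈ U}) (h : π (τ d.1) ∈ U), τ' d = ⟨τ d.1, h⟩ := fun d h => dif_pos h
  have t2 : ∀ (d : {d // π d ∈ U}), π (τ d.1) ∉ U → τ' d = d := fun d h => dif_neg h
  have t3 : ∀ (d : D) (hd : π d ∈ U), (τ d = d ∨ π (τ d) ∉ U) → τ' ⟨d, hd⟩ = ⟨d, hd⟩ := by
    intro d hd h
    by_cases a : π (τ d) ∈ U
    · rw [t1 _ a]
      rcases h with h | h
      · exact Subtype.ext h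
      · exact absurd a h
    · exact t2 _ a
  have hτ' : ∀ d, τ' (τ' d) = d := by
    intro d
    by_cases a : π (τ d.1) ∈ U
    · rw [t1 d a, t1 _ (by simpa [hτ] using d.2)]
      exact Subtype.ext (hτ _)
    · rw [t2 d a, t2 d a]
  have hfib : ∀ v : {v // v ∈ U}, (univ.filter (fun d => π' d = v)).map
      (Function.Embedding.subtype _) = univ.filter (fun d => π d = v.1) := by
    intro v
    ext d
    simp only [mem_map, mem_filter, mem_univ, true_and, Function.Embedding.coe_subtype, π']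
    constructor
    · rintro ⟨e, he, rfl⟩
      exact congrArg Subtype.val he
    · intro h
      exact ⟨⟨d, h ▸ v.2⟩, Subtype.ext h, rfl⟩
  obtain ⟨f, a1, a2, a3, a4, a5⟩ := base π' τ' hτ' r m s j c hp
    (fun v => by rw [← hreg v.1, ← hfib, card_map])
    (by
      intro U' hne hnu
      have b := h2 (U'.map (Function.Embedding.subtype _))
        (by intro v hv; obtain ⟨u, -, rfl⟩ := mem_map.1 hv; exact u.2)
        (by simpa using hne)
        (by
          intro e
          apply hnu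
          rw [eq_univ_iff_forall]
          intro v
          have : v.1 ∈ U'.map (Function.Embedding.subtype _) := by rw [e]; exact v.2
          simpa using this)
      refine b.trans ?_
      rw [← card_map (Function.Embedding.subtype (fun d => π d ∈ U))]
      refine card_le_card ?_
      intro d hd
      simp only [mem_map, mem_filter, mem_univ, true_and, Function.Embedding.coe_subtype,
        mem_sdiff, not_exists, not_and] at hd ⊢
      obtain ⟨⟨u, hu, e⟩, h3, h4⟩ := hd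
      have hdU : π d ∈ U := e ▸ u.2
      refine ⟨⟨d, hdU⟩, ⟨?_, ?_⟩, rfl⟩
      · have : π' ⟨d, hdU⟩ = u := Subtype.ext e.symm
        rwa [this]
      · rw [t1 _ h3]
        intro h5
        exact h4 _ h5 rfl)
    ⟨d0, h0⟩ ρ hρ
  refine ⟨fun d => if h : π d ∈ U then f ⟨d, h⟩ else 0, ⟨?_, ?_, ?_, ?_⟩, ?_⟩
  · intro d h1 h2
    simp only [dif_pos h1, dif_pos h2]
    rw [← a1 ⟨d, h1⟩, t1 _ h2]
  · intro d h1
    simp only [dif_pos h1]
    exact a2 _
  · intro d h1 h2
    simp only [dif_pos h1]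
    exact a3 _ (t3 d h1 h2)
  · intro v hv
    rw [← a4 ⟨v, hv⟩, ← hfib ⟨v, hv⟩, sum_map]
    refine sum_congr rfl fun d _ => ?_
    simp [d.2]
  · intro h
    simp only [dif_pos h0]
    exact a5 (t3 d0 h0 h)

theorem main_ind {V D : Type} [Fintype V] [Fintype D] [DecidableEq V] [DecidableEq D]
    (π : D → V) (τ : D → D) (hτ : ∀ d, τ (τ d) = d) (r m s j : ℕ) (c : ℤ) (hp : Par r m s j c)
    (hreg : ∀ v, (univ.filter (fun d => π d = v)).card = r) (U : Finset V) :
    ∀ (d0 : D) (ρ : ℤ), (ρ ≠ 0 ∧ |ρ| < 5 ∧ Even ρ) →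
    ∃ f : D → ℤ, Good π τ U f ∧ (π d0 ∈ U → (τ d0 = d0 ∨ π (τ d0) ∉ U) → f d0 = ρ) := by
  classical
  induction U using Finset.strongInduction with
  | H U ih =>
  intro d0 ρ hρ
  by_cases hb : ∀ U1 ⊆ U, U1.Nonempty → U1 ≠ U →
      2 ≤ (univ.filter (fun d => π d ∈ U1 ∧ π (τ d) ∈ U \ U1)).card
  · by_cases h0 : π d0 ∈ U
    · obtain ⟨f, hf, h⟩ := base_sub π τ hτ r m s j c hp hreg U hb d0 h0 ρ hρ
      exact ⟨f, hf, fun _ => h⟩
    · by_cases h1 : ∃ d, π d ∈ U
      · obtain ⟨d, hd⟩ := h1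
        obtain ⟨f, hf, -⟩ := base_sub π τ hτ r m s j c hp hreg U hb d hd ρ hρ
        exact ⟨f, hf, fun h => absurd h h0⟩
      · push Not at h1
        exact ⟨fun _ => 0, ⟨fun d h => absurd h (h1 d), fun d h => absurd h (h1 d),
          fun d h => absurd h (h1 d), fun v _ => by simp⟩, fun h => absurd h h0⟩
  · push Not at hb
    obtain ⟨W, hWU, hWne, hWn, hWc⟩ := hb
    obtain ⟨U1, U2, hd12, hun, hne1, hne2, hc, h02⟩ : ∃ U1 U2 : Finset V, Disjoint U1 U2 ∧
        U1 ∪ U2 = U ∧ U1.Nonempty ∧ U2.Nonempty ∧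
        (univ.filter (fun d => π d ∈ U1 ∧ π (τ d) ∈ U2)).card < 2 ∧ π d0 ∉ U2 := by
      have hne' : (U \ W).Nonempty := sdiff_nonempty.2 fun h => hWn (Subset.antisymm hWU h)
      by_cases a : π d0 ∈ W
      · exact ⟨W, U \ W, disjoint_sdiff, union_sdiff_of_subset hWU, hWne, hne', hWc,
          by simp [a]⟩
      · refine ⟨U \ W, W, disjoint_sdiff.symm, sdiff_union_of_subset hWU, hne', hWne, ?_, a⟩
        refine lt_of_le_of_lt (le_of_eq ?_) hWc
        refine card_bij (fun d _ => τ d) ?_ ?_ ?_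
        · intro d hd
          simp only [mem_filter, mem_univ, true_and] at hd ⊢
          rw [hτ]; exact ⟨hd.2, hd.1⟩
        · intro d _ d' _ e
          rw [← hτ d, e, hτ]
        · intro d hd
          simp only [mem_filter, mem_univ, true_and] at hd ⊢
          exact ⟨τ d, by rw [hτ]; exact ⟨hd.2, hd.1⟩, hτ d⟩
    have hdj : ∀ v, v ∈ U1 → v ∉ U2 := fun v h => disjoint_left.1 hd12 h
    have hmem : ∀ v, v ∈ U ↔ v ∈ U1 ∨ v ∈ U2 := fun v => by rw [← hun, mem_union]
    have s1 : U1 ⊂ U := by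
      refine ⟨fun v hv => (hmem v).2 (Or.inl hv), fun h => ?_⟩
      obtain ⟨v, hv⟩ := hne2
      exact hdj v (h ((hmem v).2 (Or.inr hv))) hv
    have s2 : U2 ⊂ U := by
      refine ⟨fun v hv => (hmem v).2 (Or.inr hv), fun h => ?_⟩
      obtain ⟨v, hv⟩ := hne1
      exact hdj v hv (h ((hmem v).2 (Or.inl hv)))
    obtain ⟨f1, g1, r1⟩ := ih U1 s1 d0 ρ hρ
    obtain ⟨f2, g2, r2⟩ : ∃ f2 : D → ℤ, Good π τ U2 f2 ∧
        ∀ d, π d ∈ U1 → π (τ d) ∈ U2 → f2 (τ d) = f1 d := by
      by_cases a : ∃ e, π e ∈ U1 ∧ π (τ e) ∈ U2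
      · obtain ⟨e, he1, he2⟩ := a
        obtain ⟨f2, g2, r2⟩ := ih U2 s2 (τ e) (f1 e)
          ⟨(g1.2.1 e he1).1, (g1.2.1 e he1).2,
            g1.2.2.1 e he1 (Or.inr fun h => hdj _ h he2)⟩
        refine ⟨f2, g2, fun d hd1 hd2 => ?_⟩
        have : d = e := card_le_one.1 (by omega : (univ.filter
          (fun d => π d ∈ U1 ∧ π (τ d) ∈ U2)).card ≤ 1) d (by simp [hd1, hd2]) e
          (by simp [he1, he2])
        subst this
        exact r2 he2 (Or.inr (by rw [hτ]; exact hdj _ he1))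
      · obtain ⟨f2, g2, -⟩ := ih U2 s2 d0 ρ hρ
        exact ⟨f2, g2, fun d h1 h2 => absurd ⟨d, h1, h2⟩ a⟩
    refine ⟨fun d => if π d ∈ U1 then f1 d else f2 d, ⟨?_, ?_, ?_, ?_⟩, ?_⟩
    · intro d h1 h2
      rcases (hmem _).1 h1 with a | a <;> rcases (hmem _).1 h2 with b | b
      · simp only [a, b, if_true]; exact g1.1 d a b
      · have b' : π (τ d) ∉ U1 := fun h => hdj _ h b
        simp only [a, b', if_true, if_false]; exact r2 d a b
      · have a' : π d ∉ U1 := fun h => hdj _ h a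
        simp only [a', b, if_true, if_false]
        have := r2 (τ d) b (by rw [hτ]; exact a)
        rw [hτ] at this; exact this.symm
      · have a' : π d ∉ U1 := fun h => hdj _ h a
        have b' : π (τ d) ∉ U1 := fun h => hdj _ h b
        simp only [a', b', if_false]; exact g2.1 d a b
    · intro d h1
      rcases (hmem _).1 h1 with a | a
      · simp only [a, if_true]; exact g1.2.1 d a
      · have a' : π d ∉ U1 := fun h => hdj _ h a
        simp only [a', if_false]; exact g2.2.1 d a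
    · intro d h1 h2
      rcases (hmem _).1 h1 with a | a
      · simp only [a, if_true]
        exact g1.2.2.1 d a (h2.imp id fun h h' => h ((hmem _).2 (Or.inl h')))
      · have a' : π d ∉ U1 := fun h => hdj _ h a
        simp only [a', if_false]
        exact g2.2.2.1 d a (h2.imp id fun h h' => h ((hmem _).2 (Or.inr h')))
    · intro v hv
      rcases (hmem _).1 hv with a | a
      · rw [← g1.2.2.2 v a]
        refine sum_congr rfl fun d hd => ?_
        rw [mem_filter] at hd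
        simp [hd.2, a]
      · rw [← g2.2.2.2 v a]
        refine sum_congr rfl fun d hd => ?_
        rw [mem_filter] at hd
        have a' : v ∉ U1 := fun h => hdj _ h a
        simp [hd.2, a']
    · intro h1 h2
      have a : π d0 ∈ U1 := ((hmem _).1 h1).resolve_right h02
      simp only [a, if_true]
      exact r1 a (h2.imp id fun h h' => h ((hmem _).2 (Or.inl h')))

theorem dart_flow {V D : Type} [Fintype V] [Fintype D] [DecidableEq V] [DecidableEq D]
    (π : D → V) (τ : D → D) (hτ : ∀ d, τ (τ d) = d) (r : ℕ) (h3 : 3 ≤ r)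
    (hreg : ∀ v, (univ.filter (fun d => π d = v)).card = r) :
    ∃ f : D → ℤ, (∀ d, f (τ d) = f d) ∧ (∀ d, f d ≠ 0 ∧ |f d| < 5) ∧
      (∀ v, ∑ d ∈ univ.filter (fun d => π d = v), f d = 0) := by
  classical
  have hR : Reg π (fun d => π (τ d)) univ r := reg_swap π τ hτ _ (by simp) r hreg
  by_cases c3 : r % 3 = 0
  · obtain ⟨A, -, hA⟩ := exists_factor _ _ hR (r / 3) (by omega)
    refine ⟨fun d => 2 - 3 * ((if d ∈ A then 1 else 0) + (if τ d ∈ A then 1 else 0)),
      fun d => by simp only [hτ]; ring, fun d => by dsimp only; split_ifs <;> norm_num, fun v => ?_⟩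
    obtain ⟨e1, e2⟩ := sum_ind π τ hτ A _ hA v
    rw [sum_sub_distrib, ← mul_sum, sum_add_distrib, e1, e2, sum_const, hreg]
    simp only [nsmul_eq_mul]
    omega
  by_cases c4 : r % 4 = 0
  · obtain ⟨A, -, hA⟩ := exists_factor _ _ hR (r / 4) (by omega)
    refine ⟨fun d => 1 - 2 * ((if d ∈ A then 1 else 0) + (if τ d ∈ A then 1 else 0)),
      fun d => by simp only [hτ]; ring, fun d => by dsimp only; split_ifs <;> norm_num, fun v => ?_⟩
    obtain ⟨e1, e2⟩ := sum_ind π τ hτ A _ hA v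
    rw [sum_sub_distrib, ← mul_sum, sum_add_distrib, e1, e2, sum_const, hreg]
    simp only [nsmul_eq_mul]
    omega
  obtain ⟨m, s, j, c, hp⟩ : ∃ m s j c, Par r m s j c := by
    by_cases c7 : r = 7
    · exact ⟨3, 2, 1, 1, by subst c7; unfold Par; norm_num⟩
    · refine ⟨r - 2 * (r / 6 + 1), r / 6 + 1, 6 * (r / 6 + 1) - r, 2, ?_⟩
      unfold Par
      omega
  by_cases hD : Nonempty D
  · obtain ⟨d0⟩ := hD
    obtain ⟨f, g, -⟩ := main_ind π τ hτ r m s j c hp hreg univ d0 2 (by norm_num)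
    exact ⟨f, fun d => g.1 d (mem_univ _) (mem_univ _), fun d => g.2.1 d (mem_univ _),
      fun v => g.2.2.2 v (mem_univ _)⟩
  · exact ⟨fun _ => 0, fun _ => rfl, fun d => absurd ⟨d⟩ hD, fun v => by simp⟩

theorem zero_sum_five (V : Type) [Fintype V] [DecidableEq V] (G : SimpleGraph V)
    [DecidableRel G.Adj] (r : ℕ) (h3 : 3 ≤ r) (hG : G.IsRegularOfDegree r) :
    ∃ f : Sym2 V → ℤ, (∀ e ∈ G.edgeSet, f e ≠ 0 ∧ |f e| < 5) ∧
      ∀ v : V, ∑ w ∈ G.neighborFinset v, f s(v, w) = 0 := by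
  classical
  obtain ⟨f, a1, a2, a3⟩ := dart_flow (V := V) (D := G.Dart) (fun d => d.fst) (fun d => d.symm)
    (fun d => d.symm_symm) r h3
    (fun v => by rw [← hG.degree_eq v, ← G.dart_fst_fiber_card_eq_degree v])
  let g : V → V → ℤ := fun u v => if h : G.Adj u v then f ⟨(u, v), h⟩ else 0
  have hg : ∀ u v, g u v = g v u := by
    intro u v
    by_cases h : G.Adj u v
    · simp only [g, dif_pos h, dif_pos h.symm]
      exact (a1 ⟨(u, v), h⟩).symm
    · simp only [g, dif_neg h, dif_neg (fun h' : G.Adj v u => h h'.symm)]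
  refine ⟨Sym2.lift ⟨g, hg⟩, ?_, ?_⟩
  · intro e he
    induction e using Sym2.ind with
    | h u v =>
      have h : G.Adj u v := he
      simp only [Sym2.lift_mk, g, dif_pos h]
      exact a2 _
  · intro v
    rw [← a3 v]
    symm
    refine sum_bij (fun d _ => d.snd) ?_ ?_ ?_ ?_
    · intro d hd
      simp only [mem_filter, mem_univ, true_and] at hd
      rw [SimpleGraph.mem_neighborFinset, ← hd]
      exact d.adj
    · intro d hd d' hd' e
      simp only [mem_filter, mem_univ, true_and] at hd hd'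
      exact SimpleGraph.Dart.ext _ _ (Prod.ext (hd.trans hd'.symm) e)
    · intro w hw
      rw [SimpleGraph.mem_neighborFinset] at hw
      exact ⟨⟨(v, w), hw⟩, by simp, rfl⟩
    · intro d hd
      simp only [mem_filter, mem_univ, true_and] at hd
      subst hd
      simp only [Sym2.lift_mk, g, dif_pos d.adj]

end Pool.Agent.H721Z.ZS
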